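import Pool.Agent.H458.AG.Tow

/-!
# The real condition is automatic if there is exactly one real zero (AG REAL1)
-/

set_option autoImplicit false
set_option linter.all false

open Polynomial
open scoped Classical ComplexConjugate

namespace Pool.Agent.H30.AG458

open Pool.Agent.N783.PQ (LocIm)

/-- The norm as a product over the roots. -/
theorem norm_roots {K : Type} [Field K] [CharZero K] {F : K[X]} (hirr : Irreducible F)
    (τ : K →+* ℂ) (p : K[X]) :
    τ (Algebra.norm K (AdjoinRoot.mk F p)) =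
      ∏ z ∈ (F.map τ).roots.toFinset, (p.map τ).eval z := by
  letI : Algebra K ℂ := τ.toAlgebra
  haveI : Fact (Irreducible F) := ⟨hirr⟩
  have hτ : algebraMap K ℂ = τ := rfl
  haveI : FiniteDimensional K (AdjoinRoot F) := (AdjoinRoot.powerBasis hirr.ne_zero).finite
  have hF : F.map τ ≠ 0 := Polynomial.map_ne_zero hirr.ne_zero
  have hr : ∀ z : ℂ, (F.map τ).IsRoot z → aeval z F = 0 := by
    intro z hz
    rw [aeval_def, hτ, ← eval_map]
    exact hz
  let φ : ∀ z : ℂ, (F.map τ).IsRoot z → (AdjoinRoot F →ₐ[K] ℂ) := fun z hz =>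
    AdjoinRoot.liftAlgHom F (Algebra.ofId K ℂ) z (hr z hz)
  have hφ : ∀ (z : ℂ) (hz : (F.map τ).IsRoot z) (p : K[X]), φ z hz (AdjoinRoot.mk F p) =
      (p.map τ).eval z := by
    intro z hz p
    have h1 := AdjoinRoot.liftAlgHom_mk F (Algebra.ofId K ℂ) z (hr z hz) p
    rw [Algebra.toRingHom_ofId, hτ, ← eval_map] at h1
    exact h1
  have hN := Algebra.norm_eq_prod_embeddings K ℂ (AdjoinRoot.mk F p)
  rw [hτ] at hN
  rw [hN]
  symm
  refine Finset.prod_bij (fun z hz => φ z ((Polynomial.mem_roots hF).mp (Multiset.mem_toFinset.mp hz)))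
    (fun _ _ => Finset.mem_univ _) ?_ ?_ ?_
  · intro z hz z' hz' h
    have h4 := hφ z ((Polynomial.mem_roots hF).mp (Multiset.mem_toFinset.mp hz)) X
    have h5 := hφ z' ((Polynomial.mem_roots hF).mp (Multiset.mem_toFinset.mp hz')) X
    have h' : φ z ((Polynomial.mem_roots hF).mp (Multiset.mem_toFinset.mp hz)) =
      φ z' ((Polynomial.mem_roots hF).mp (Multiset.mem_toFinset.mp hz')) := h
    rw [h'] at h4
    rw [h4] at h5
    simpa using h5
  · intro ψ _
    have hroot : (F.map τ).IsRoot (ψ (AdjoinRoot.root F)) := by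
      have h1 : aeval (AdjoinRoot.root F) F = 0 := by
        rw [AdjoinRoot.aeval_eq, AdjoinRoot.mk_self]
      have h2 : aeval (ψ (AdjoinRoot.root F)) F = 0 := by
        rw [aeval_algHom_apply, h1, map_zero]
      rw [IsRoot, eval_map, ← hτ, ← aeval_def]
      exact h2
    refine ⟨ψ (AdjoinRoot.root F), Multiset.mem_toFinset.mpr ((Polynomial.mem_roots hF).mpr hroot), ?_⟩
    apply AdjoinRoot.algHom_ext
    have h3 := hφ _ hroot X
    rw [map_X, eval_X, AdjoinRoot.mk_X] at h3
    exact h3
  · intro z hz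
    exact (hφ z ((Polynomial.mem_roots hF).mp (Multiset.mem_toFinset.mp hz)) p).symm

/-- Real interpolation at a finite set of complex points closed under conjugation. -/
theorem exists_interp (S : Finset ℂ) (hS : ∀ z ∈ S, conj z ∈ S) (d : ℂ → ℂ)
    (hd : ∀ z ∈ S, d (conj z) = conj (d z)) :
    ∃ s : ℝ[X], ∀ z ∈ S, (s.map (algebraMap ℝ ℂ)).eval z = d z := by
  obtain ⟨q, hq⟩ : ∃ q : ℂ[X], ∀ z ∈ S, q.eval z = d z :=
    ⟨Lagrange.interpolate S id d, fun z hz =>
      Lagrange.eval_interpolate_at_node (v := id) d (Function.injective_id.injOn) hz⟩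
  set q' : ℂ[X] := C (1 / 2 : ℂ) * (q + q.map (starRingEnd ℂ)) with hq'
  have hlift : q' ∈ Polynomial.lifts (algebraMap ℝ ℂ) := by
    rw [Polynomial.lifts_iff_coeff_lifts]
    intro n
    refine ⟨(q.coeff n).re, ?_⟩
    rw [hq', coeff_C_mul, coeff_add, coeff_map, Complex.add_conj]
    simp
  obtain ⟨s, hs⟩ := (Polynomial.mem_lifts _).mp hlift
  refine ⟨s, fun z hz => ?_⟩
  rw [hs, hq', eval_mul, eval_C, eval_add, hq z hz]
  have h1 : (q.map (starRingEnd ℂ)).eval z = d z := by
    have h2 : (q.map (starRingEnd ℂ)).eval (conj (conj z)) = conj (q.eval (conj z)) := by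
      rw [eval_map, eval₂_at_apply]
    rw [Complex.conj_conj, hq _ (hS z hz), hd z hz, Complex.conj_conj] at h2
    exact h2
  rw [h1]
  ring

theorem real1_aux (K : Type) [Field K] [CharZero K] (F : K[X]) (hm : F.Monic) (hirr : Irreducible F)
    (σ : K →+* ℝ) (he1 : ∃! e : ℝ, (F.map σ).eval e = 0) (p : K[X]) (hc : IsCoprime p F)
    (hN : IsSquare (Algebra.norm K (AdjoinRoot.mk F p))) : LocIm ℝ (F.map σ) (p.map σ) := by
  obtain ⟨e, he, huniq⟩ := he1
  obtain ⟨τ, hτ⟩ : ∃ τ : K →+* ℂ, τ = (algebraMap ℝ ℂ).comp σ := ⟨_, rfl⟩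
  have hmap : ∀ q : K[X], q.map τ = (q.map σ).map (algebraMap ℝ ℂ) := by
    intro q
    rw [hτ, Polynomial.map_map]
  have hconj : ∀ (q : ℝ[X]) (z : ℂ), (q.map (algebraMap ℝ ℂ)).eval (conj z) =
      conj ((q.map (algebraMap ℝ ℂ)).eval z) := by
    intro q z
    rw [eval_map_algebraMap, eval_map_algebraMap, aeval_conj]
  have hreal : ∀ (q : ℝ[X]) (x : ℝ), (q.map (algebraMap ℝ ℂ)).eval (x : ℂ) = ((q.eval x : ℝ) : ℂ) := by
    intro q x
    rw [← Complex.coe_algebraMap, eval_map_algebraMap, aeval_algebraMap_apply]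
    simp
  have hF0 : F.map τ ≠ 0 := Polynomial.map_ne_zero hirr.ne_zero
  set S : Finset ℂ := (F.map τ).roots.toFinset with hSdef
  have hmemS : ∀ z : ℂ, z ∈ S ↔ (F.map τ).eval z = 0 := by
    intro z
    rw [hSdef, Multiset.mem_toFinset, Polynomial.mem_roots hF0]
    rfl
  have hSc : ∀ z ∈ S, conj z ∈ S := by
    intro z hz
    rw [hmemS] at hz ⊢
    rw [hmap] at hz ⊢
    rw [hconj, hz, map_zero]
  have heS : (e : ℂ) ∈ S := by
    rw [hmemS, hmap, hreal, he, Complex.ofReal_zero]
  have hSreal : ∀ z ∈ S, z.im = 0 → z = (e : ℂ) := by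
    intro z hz him
    have hz1 : z = ((z.re : ℝ) : ℂ) := by
      apply Complex.ext
      · simp
      · simpa using him
    rw [hmemS, hz1, hmap, hreal] at hz
    have hz2 : (F.map σ).eval z.re = 0 := by exact_mod_cast hz
    rw [hz1, huniq _ hz2]
  set P : ℂ → ℂ := fun z => (p.map τ).eval z with hP
  have hPc : ∀ z, P (conj z) = conj (P z) := by
    intro z
    simp only [hP, hmap, hconj]
  have hPe : P (e : ℂ) = (((p.map σ).eval e : ℝ) : ℂ) := by
    simp only [hP, hmap, hreal]
  have hPne : ∀ z ∈ S, P z ≠ 0 := by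
    intro z hz h0
    rw [hmemS] at hz
    obtain ⟨u, v, huv⟩ := hc
    have h2 := congrArg (fun q : K[X] => (q.map τ).eval z) huv
    simp only [Polynomial.map_add, Polynomial.map_mul, Polynomial.map_one, eval_add, eval_mul,
      eval_one] at h2
    have h0' : (p.map τ).eval z = 0 := h0
    rw [h0', hz, mul_zero, mul_zero, add_zero] at h2
    exact zero_ne_one h2
  -- the product
  have hprod : ∏ z ∈ S, P z = (((p.map σ).eval e *
      Complex.normSq (∏ z ∈ S.filter (fun z => 0 < z.im), P z) : ℝ) : ℂ) := by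
    have hsplit : S = insert (e : ℂ) (S.filter (fun z => 0 < z.im) ∪ S.filter (fun z => z.im < 0)) := by
      ext z
      simp only [Finset.mem_insert, Finset.mem_union, Finset.mem_filter]
      constructor
      · intro hz
        rcases lt_trichotomy z.im 0 with h | h | h
        · exact Or.inr (Or.inr ⟨hz, h⟩)
        · exact Or.inl (hSreal z hz h)
        · exact Or.inr (Or.inl ⟨hz, h⟩)
      · rintro (h | h | h)
        · rw [h]; exact heS
        · exact h.1
        · exact h.1
    have hnot : (e : ℂ) ∉ S.filter (fun z => 0 < z.im) ∪ S.filter (fun z => z.im < 0) := by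
      simp
    have hdisj : Disjoint (S.filter (fun z => 0 < z.im)) (S.filter (fun z => z.im < 0)) := by
      rw [Finset.disjoint_left]
      intro z h1 h2
      rw [Finset.mem_filter] at h1 h2
      linarith [h1.2, h2.2]
    have hneg : ∏ z ∈ S.filter (fun z => z.im < 0), P z =
        conj (∏ z ∈ S.filter (fun z => 0 < z.im), P z) := by
      rw [map_prod]
      refine Finset.prod_bij (fun z _ => conj z) ?_ ?_ ?_ ?_
      · intro z hz
        rw [Finset.mem_filter] at hz ⊢
        refine ⟨hSc z hz.1, ?_⟩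
        rw [Complex.conj_im]
        linarith [hz.2]
      · intro z _ z' _ h
        exact (starRingEnd ℂ).injective h
      · intro z hz
        rw [Finset.mem_filter] at hz
        refine ⟨conj z, ?_, Complex.conj_conj z⟩
        rw [Finset.mem_filter]
        refine ⟨hSc z hz.1, ?_⟩
        rw [Complex.conj_im]
        linarith [hz.2]
      · intro z _
        rw [hPc, Complex.conj_conj]
    calc ∏ z ∈ S, P z = ∏ z ∈ insert (e : ℂ) (S.filter (fun z => 0 < z.im) ∪
          S.filter (fun z => z.im < 0)), P z := by rw [← hsplit]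
      _ = P (e : ℂ) * ((∏ z ∈ S.filter (fun z => 0 < z.im), P z) *
          conj (∏ z ∈ S.filter (fun z => 0 < z.im), P z)) := by
        rw [Finset.prod_insert hnot, Finset.prod_union hdisj, hneg]
      _ = _ := by
        rw [Complex.mul_conj, hPe]
        push_cast
        rfl
  have hpe : 0 ≤ (p.map σ).eval e := by
    obtain ⟨c, hc'⟩ := hN
    have hn := norm_roots hirr τ p
    rw [hc', map_mul] at hn
    have hn1 : τ c * τ c = ∏ z ∈ S, P z := hn
    rw [hprod] at hn1
    have hn2 : σ c * σ c = (p.map σ).eval e *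
      Complex.normSq (∏ z ∈ S.filter (fun z => 0 < z.im), P z) := by
      have h1 : ((σ c * σ c : ℝ) : ℂ) = (((p.map σ).eval e *
        Complex.normSq (∏ z ∈ S.filter (fun z => 0 < z.im), P z) : ℝ) : ℂ) := by
        rw [← hn1, hτ]
        push_cast
        rfl
      exact_mod_cast h1
    have hpos : 0 < Complex.normSq (∏ z ∈ S.filter (fun z => 0 < z.im), P z) := by
      rw [Complex.normSq_pos, Finset.prod_ne_zero_iff]
      intro z hz
      exact hPne z (Finset.mem_filter.mp hz).1
    by_contra hneg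
    rw [not_le] at hneg
    have := mul_neg_of_neg_of_pos hneg hpos
    nlinarith [mul_self_nonneg (σ c)]
  -- square roots
  obtain ⟨r, hr⟩ : ∃ r : ℂ → ℂ, ∀ w, r w ^ 2 = w := by
    choose r hr using fun w : ℂ => IsAlgClosed.exists_pow_nat_eq w (n := 2) (by norm_num)
    exact ⟨r, hr⟩
  set d : ℂ → ℂ := fun z => if 0 < z.im then r (P z) else if z.im < 0 then conj (r (P (conj z)))
    else ((Real.sqrt ((p.map σ).eval e) : ℝ) : ℂ) with hd
  have hd2 : ∀ z ∈ S, d z ^ 2 = P z := by
    intro z hz
    simp only [hd]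
    split_ifs with h1 h2
    · exact hr _
    · rw [← map_pow, hr, hPc, Complex.conj_conj]
    · rw [hSreal z hz (by linarith), hPe, ← Complex.ofReal_pow, Real.sq_sqrt hpe]
  have hdc : ∀ z ∈ S, d (conj z) = conj (d z) := by
    intro z hz
    simp only [hd, Complex.conj_im, Complex.conj_conj]
    rcases lt_trichotomy z.im 0 with h | h | h
    · rw [if_pos (by linarith), if_neg (by linarith), if_pos h, Complex.conj_conj]
    · rw [if_neg (by linarith), if_neg (by linarith), if_neg (by linarith), if_neg (by linarith),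
        Complex.conj_ofReal]
    · rw [if_neg (by linarith), if_pos (by linarith), if_pos h]
  obtain ⟨s, hs⟩ := exists_interp S hSc d hdc
  refine ⟨[], s, by simp, ?_⟩
  rw [List.map_nil, List.prod_nil, mul_one]
  rw [← Polynomial.map_dvd_map' (algebraMap ℝ ℂ), ← hmap]
  set Q : ℂ[X] := (p.map σ - s ^ 2).map (algebraMap ℝ ℂ) with hQ
  have hQz : ∀ z ∈ S, Q.eval z = 0 := by
    intro z hz
    rw [hQ, Polynomial.map_sub, Polynomial.map_pow, eval_sub, eval_pow, hs z hz, hd2 z hz, ← hmap]
    exact sub_self _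
  by_cases hQ0 : Q = 0
  · rw [hQ0]; exact dvd_zero _
  · have hsp : (F.map τ).Splits := IsAlgClosed.splits _
    have hmon : (F.map τ).Monic := hm.map τ
    have heq : F.map τ = ((F.map τ).roots.map fun a => X - C a).prod :=
      hsp.eq_prod_roots_of_monic hmon
    have hnd : (F.map τ).roots.Nodup := Polynomial.nodup_roots (hirr.separable.map)
    rw [heq, Multiset.prod_X_sub_C_dvd_iff_le_roots hQ0, Multiset.le_iff_subset hnd]
    intro z hz
    rw [Polynomial.mem_roots hQ0]
    exact hQz z (Multiset.mem_toFinset.mpr hz)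

theorem real1 : Pool.Agent.H458.AG.S_REAL1 :=
  fun K _ _ F hm hirr σ he p hc hN => real1_aux K F hm hirr σ he p hc hN

end Pool.Agent.H30.AG458
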